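import Pool.Agent.H73.KG.Stmts2

/-!
# Project KG, module OS0: the end of the telescoping
-/

set_option autoImplicit false

open MeasureTheory Set Filter Topology
open scoped ContDiff

namespace Pool.Agent.H73.KG

open Pool.Agent.H84 Pool.Agent.H84.Sym Pool.Agent.H84.Sym.P2x Pool.Agent.H19.KL

variable {E : Type} [NormedAddCommGroup E] [InnerProductSpace ℝ E]
    [FiniteDimensional ℝ E] [MeasurableSpace E] [BorelSpace E]

omit [FiniteDimensional ℝ E] [MeasurableSpace E] [BorelSpace E] in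
/-- a function with bounded derivative is of exponential growth -/
theorem os0_gc {g : E → ℝ} (hg : ContDiff ℝ 1 g) {c : ℝ} (hc : ∀ x, ‖fderiv ℝ g x‖ ≤ c) : GC g := by
  have h1 : ∀ x, |g x - g 0| ≤ c * ‖x‖ := by
    intro x
    have h := Convex.norm_image_sub_le_of_norm_fderiv_le (𝕜 := ℝ) (f := g) (C := c) (s := univ)
      (fun y _ => (hg.differentiable (by norm_num)) y) (fun y _ => hc y) convex_univ
      (mem_univ (0:E)) (mem_univ x)
    simpa using h
  have h2 : GC (fun x : E => |g 0| + c * ‖x‖) :=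
    (GC.const (|g 0|)).add ((GC.const c).mul ⟨continuous_norm, Gr.nrm⟩)
  refine ⟨hg.continuous, Gr.of_le h2.2 fun x => ?_⟩
  have h3 := h1 x
  have h4 : |g x| ≤ |g 0| + |g x - g 0| := by
    have := abs_add_le (g 0) (g x - g 0)
    rwa [add_sub_cancel] at this
  exact (h4.trans (by linarith)).trans (le_abs_self _)

omit [FiniteDimensional ℝ E] [MeasurableSpace E] [BorelSpace E] in
theorem os0_li (e : E) : ContDiff ℝ 1 (li e) ∧ GC (li e) := by
  have h1 : ContDiff ℝ 1 (li e) := (innerSL ℝ e).contDiff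
  refine ⟨h1, os0_gc h1 (c := ‖e‖) fun x => ?_⟩
  have h2 : HasFDerivAt (li e) (innerSL ℝ e) x := (innerSL ℝ e).hasFDerivAt
  rw [h2.fderiv, innerSL_apply_norm]

/-- OS0 -/
theorem os0_thm : OS0Stmt E := by
  intro U t hB g W hO θ
  obtain ⟨⟨⟨C, hU⟩, hP⟩, hle⟩ := hB
  obtain ⟨hg1, hW, ⟨B, hWB⟩, hOS⟩ := hO
  have hB0 : 0 ≤ B := (abs_nonneg _).trans (hWB 0)
  have hd : ∀ x, ‖fderiv ℝ g x‖ ≤ (1 + B) / 2 := by
    intro x
    have hone : ∀ z : E, ‖z‖ = 1 → fderiv ℝ g x z ≤ (1 + B) / 2 := by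
      intro z hz
      have h1 := hOS x z
      have h2 := hle x z
      have h3 := (abs_le.1 (hWB x)).2
      rw [hz] at h2
      nlinarith [h1, h2, h3, hU.hess x z]
    refine ContinuousLinearMap.opNorm_le_of_unit_norm (by positivity) fun z hz => ?_
    rw [Real.norm_eq_abs, abs_le]
    refine ⟨?_, hone z hz⟩
    have := hone (-z) (by rw [norm_neg, hz])
    rw [map_neg] at this
    linarith
  have hG : GC g := os0_gc hg1 hd
  refine ⟨hG, ?_⟩
  have hGW : GC W := ⟨hW, Gr.of_bdd hWB⟩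
  have hv := sec_bl (V := U) (k := g) (q := W) (s := 0) hU hg1 hG.2 hW hGW.2
    (fun x η => by have := hOS x η; linarith)
  set f : E → ℝ := li θ with hf
  have hGf : GC f := (os0_li θ).2
  have i1 : Integrable (fun x => f x ^ 2) (mu U) := hGf.sq.integrable hU
  have i2 : Integrable (fun x => g x ^ 2) (mu U) := hG.sq.integrable hU
  have i3 : Integrable (fun x => f x * g x) (mu U) := (hGf.mul hG).integrable hU
  have i4 : Integrable f (mu U) := hGf.integrable hU
  have i5 : Integrable g (mu U) := hG.integrable hU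
  set m := (∫ x, f x ∂(mu U)) - ∫ x, g x ∂(mu U) with hm
  have h1 : 0 ≤ ∫ x, (f x - g x - m) ^ 2 ∂(mu U) := integral_nonneg fun x => sq_nonneg _
  have i12 : Integrable (fun x => f x ^ 2 + g x ^ 2) (mu U) := i1.add i2
  have i123 : Integrable (fun x => f x ^ 2 + g x ^ 2 - 2 * (f x * g x)) (mu U) :=
    i12.sub (i3.const_mul 2)
  have i45 : Integrable (fun x => f x - g x) (mu U) := i4.sub i5
  have i1234 : Integrable (fun x => f x ^ 2 + g x ^ 2 - 2 * (f x * g x) -
      2 * m * (f x - g x)) (mu U) := i123.sub (i45.const_mul (2 * m))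
  have h2 : ∫ x, (f x - g x - m) ^ 2 ∂(mu U) = (∫ x, f x ^ 2 ∂(mu U)) + (∫ x, g x ^ 2 ∂(mu U)) -
      2 * (∫ x, f x * g x ∂(mu U)) - 2 * m * m + m ^ 2 := by
    have e : ∫ x, (f x - g x - m) ^ 2 ∂(mu U) = ∫ x, ((f x ^ 2 + g x ^ 2 - 2 * (f x * g x) -
        2 * m * (f x - g x)) + m ^ 2) ∂(mu U) := by
      refine integral_congr_ae (Eventually.of_forall fun x => ?_)
      simp only
      ring
    rw [e, integral_add i1234 (integrable_const _), integral_sub i123 (i45.const_mul (2 * m)),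
      integral_sub i12 (i3.const_mul 2), integral_add i1 i2, integral_const_mul,
      integral_const_mul, integral_sub i4 i5, integral_const, probReal_univ, one_smul]
  have e2 : ∫ x, f x * f x ∂(mu U) = ∫ x, f x ^ 2 ∂(mu U) := by simp only [pow_two]
  unfold cv
  rw [e2]
  rw [h2] at h1
  nlinarith [h1, hv, hm]

end Pool.Agent.H73.KG
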