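import Pool.Agent.H73.KG.Stmts2
import Mathlib.Analysis.Complex.ExponentialBounds

/-!
# Project KG, module TKL: the third moment bound with real parameters
-/

set_option autoImplicit false

open MeasureTheory Set Filter Topology
open scoped ContDiff

namespace Pool.Agent.H73.KG

open Pool.Agent.H84 Pool.Agent.H84.Sym Pool.Agent.H84.Sym.P2x Pool.Agent.H19.KL

/-- the elementary estimate -/
theorem tkl_num (C : ℝ) (hC : 1 ≤ C) (n : ℕ) (s : ℝ) (hs : 0 < s) (hs2 : s ≤ 1 / 2) :
    ∃ g : ℕ, 1 ≤ g ∧ C * (1 + Nat.log 2 (n + 1)) ≤ 2 ^ g * (s / 2) ^ 7 ∧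
      (g : ℝ) ≤ (11 + Real.log C / Real.log 2) * (Real.log (1 / s) + L2 n) := by
  have hl2 : 0.6931471803 < Real.log 2 := Real.log_two_gt_d9
  have hl2' : Real.log 2 < 0.6931471808 := Real.log_two_lt_d9
  have hlC : 0 ≤ Real.log C := Real.log_nonneg hC
  set y : ℝ := C * (1 + Nat.log 2 (n + 1)) * (2 / s) ^ 7 with hy
  have h1N : (1:ℝ) ≤ 1 + Nat.log 2 (n + 1) := by
    have : (0:ℝ) ≤ Nat.log 2 (n + 1) := Nat.cast_nonneg _
    linarith
  have h4 : (4:ℝ) ≤ 2 / s := by
    rw [le_div_iff₀ hs]; linarith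
  have hy1 : 1 < y := by
    have h5 : (1:ℝ) < (2 / s) ^ 7 := one_lt_pow₀ (by linarith) (by norm_num)
    have h6 : (1:ℝ) ≤ C * (1 + Nat.log 2 (n + 1)) := one_le_mul_of_one_le_of_one_le hC h1N
    nlinarith
  have hly : 0 < Real.log y := Real.log_pos hy1
  refine ⟨⌈Real.log y / Real.log 2⌉₊, ?_, ?_, ?_⟩
  · rw [Nat.one_le_ceil_iff]
    positivity
  · have h7 : y ≤ 2 ^ ⌈Real.log y / Real.log 2⌉₊ := by
      have h8 : Real.log y ≤ ⌈Real.log y / Real.log 2⌉₊ * Real.log 2 := by
        have := Nat.le_ceil (Real.log y / Real.log 2)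
        rwa [div_le_iff₀ (by linarith)] at this
      rw [← Real.log_pow] at h8
      exact (Real.log_le_log_iff (by linarith) (by positivity)).1 h8
    have h9 : y * (s / 2) ^ 7 = C * (1 + Nat.log 2 (n + 1)) := by
      rw [hy, mul_assoc, ← mul_pow]
      have : 2 / s * (s / 2) = 1 := by field_simp
      rw [this, one_pow, mul_one]
    rw [← h9]
    exact mul_le_mul_of_nonneg_right h7 (by positivity)
  · have hg : (⌈Real.log y / Real.log 2⌉₊ : ℝ) ≤ Real.log y / Real.log 2 + 1 :=
      (Nat.ceil_lt_add_one (div_nonneg hly.le (by linarith))).le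
    -- `L1 ≥ 4 log 2`, `L2 ≥ 1`
    have hL1 : 4 * Real.log 2 ≤ L1 n := by
      have h10 : Real.log 16 = 4 * Real.log 2 := by
        rw [show (16:ℝ) = 2 ^ 4 by norm_num, Real.log_pow]
        norm_num
      rw [← h10]
      unfold L1
      exact Real.log_le_log (by norm_num) (by
        have : (0:ℝ) ≤ n := Nat.cast_nonneg _
        linarith)
    have hL1p : 0 < L1 n := by linarith
    have hL2 : 1 ≤ L2 n := by
      unfold L2
      rw [Real.le_log_iff_exp_le hL1p]
      have := Real.exp_one_lt_d9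
      linarith
    have hN : (Nat.log 2 (n + 1) : ℝ) * Real.log 2 ≤ L1 n := by
      have h11 : ((2:ℝ) ^ Nat.log 2 (n + 1)) ≤ n + 1 := by
        exact_mod_cast Nat.pow_log_le_self 2 (Nat.succ_ne_zero n)
      rw [← Real.log_pow]
      unfold L1
      exact Real.log_le_log (by positivity) (by linarith)
    have hN2 : (1 + Nat.log 2 (n + 1) : ℝ) ≤ 2 * L1 n := by
      have h12 : (Nat.log 2 (n + 1) : ℝ) * 0.6931471803 ≤ L1 n := by
        refine le_trans ?_ hN
        exact mul_le_mul_of_nonneg_left hl2.le (Nat.cast_nonneg _)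
      nlinarith
    have hlN : Real.log (1 + Nat.log 2 (n + 1)) ≤ Real.log 2 + L2 n := by
      unfold L2
      rw [← Real.log_mul (by norm_num) hL1p.ne']
      exact Real.log_le_log (by linarith) hN2
    have hx : Real.log 2 ≤ Real.log (1 / s) := by
      apply Real.log_le_log (by norm_num)
      rw [le_div_iff₀ hs]; linarith
    have h2s : Real.log (2 / s) = Real.log 2 + Real.log (1 / s) := by
      rw [← Real.log_mul (by norm_num) (by positivity)]
      congr 1
      field_simp
    have hlogy : Real.log y = Real.log C + Real.log (1 + Nat.log 2 (n + 1)) +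
        7 * (Real.log 2 + Real.log (1 / s)) := by
      rw [hy, Real.log_mul (by positivity) (by positivity),
        Real.log_mul (by positivity) (by positivity), Real.log_pow, h2s]
      norm_num
    have h13 : Real.log y ≤ Real.log C + 8 * Real.log 2 + L2 n + 7 * Real.log (1 / s) := by
      rw [hlogy]; linarith
    refine hg.trans ?_
    set a := Real.log C / Real.log 2 with ha
    set x := Real.log (1 / s) with hxd
    have ha0 : 0 ≤ a := div_nonneg hlC (by linarith)
    have haC : Real.log C = a * Real.log 2 := by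
      rw [ha]; field_simp
    have hx0 : 0 ≤ x := by linarith
    have h14 : Real.log y / Real.log 2 ≤ (11 + a) * (x + L2 n) - 1 := by
      rw [div_le_iff₀ (by linarith)]
      refine h13.trans ?_
      rw [haC]
      have h15 : a + 11 * x + 11 * L2 n ≤ (11 + a) * (x + L2 n) := by
        nlinarith [mul_nonneg ha0 hx0]
      have h16 : (a + 11 * x + 11 * L2 n - 1) * Real.log 2 ≤
          ((11 + a) * (x + L2 n) - 1) * Real.log 2 :=
        mul_le_mul_of_nonneg_right (by linarith) (by linarith)
      refine le_trans ?_ h16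
      have h17 : x * 0.6931471803 ≤ x * Real.log 2 := mul_le_mul_of_nonneg_left hl2.le hx0
      have h18 : L2 n * 0.6931471803 ≤ L2 n * Real.log 2 :=
        mul_le_mul_of_nonneg_left hl2.le (by linarith)
      nlinarith
    linarith

/-- TKL -/
theorem tkl_thm (hA : THAStmt) : TKLStmt := by
  obtain ⟨C, hC, hA⟩ := hA
  have hl2 : 0 < Real.log 2 := Real.log_pos (by norm_num)
  have hlC : 0 ≤ Real.log C / Real.log 2 := div_nonneg (Real.log_nonneg hC) hl2.le
  refine ⟨C * (11 + Real.log C / Real.log 2), by nlinarith, ?_⟩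
  intro E _ _ _ _ _ s hs hs2
  obtain ⟨g, hg1, hg2, hg3⟩ := tkl_num C hC (Module.finrank ℝ E) s hs hs2
  have h := hA E (s / 2) g (by positivity) (by linarith) hg1 hg2
  intro U hU hc θ hθ ι _ b
  refine (h U hU hc θ hθ ι b).trans ?_
  rw [mul_assoc]
  exact mul_le_mul_of_nonneg_left hg3 (by linarith)

end Pool.Agent.H73.KG
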